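import Mathlib
import Pool.Agent.N733.TG.B
import Pool.Agent.N733.TG.C

set_option autoImplicit false

/-! Few rough numbers `u` for which `f k * f u + a` is exceptional, moduli up to a small power (helper733). -/

namespace Pool.Agent.N733.TD

open Finset Classical Pool.Agent.N733.TG

/-- few members of the classes `a mod q`, `q ^ κ ≤ X`, are exceptional -/
def EBk (κ : ℕ) (a : ℤ) (Good : ℕ → Prop) (A : ℕ) : Prop :=
  ∃ X₀ : ℝ, ∀ X : ℝ, X₀ ≤ X → ∀ q : ℕ, 1 ≤ q → (q : ℝ) ^ κ ≤ X → ∀ V : Finset ℕ,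
    (∀ v ∈ V, 0 < (q : ℤ) * v + a ∧ (((q : ℤ) * v + a : ℤ) : ℝ) ≤ X ∧ ¬ Good ((q : ℤ) * v + a).toNat) →
    (V.card : ℝ) ≤ X / (q * Real.log X ^ A)

theorem Uk {f : ℕ → ℕ} {c : ℤ} (hf : SM f c) (a : ℤ) (Good : ℕ → Prop) (J κ : ℕ) (hκ : 1 ≤ κ)
    (hE : ∀ A, EBk κ a Good A) : ∃ N₀ : ℕ, ∀ N : ℕ, N₀ ≤ N → ∀ z k y : ℕ, N < (z + 1) ^ (J + 1) → 1 ≤ k →
      y ≤ N → f k ^ κ ≤ y → N ≤ y ^ 2 →
      ((UU f a Good z k y).card : ℝ) ≤ y / Real.log N ^ 2 := by
  obtain ⟨P, hP⟩ := hf.prime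
  obtain ⟨B, hB⟩ : ∃ B, B = 2 ^ (J * 2) := ⟨_, rfl⟩
  obtain ⟨A, hA⟩ : ∃ A, A = B + 6 := ⟨_, rfl⟩
  obtain ⟨X₀, hX₀⟩ := hE A
  -- the threshold for z
  obtain ⟨Z, hZ⟩ : ∃ Z, Z = P + 2 * c.natAbs * J + 1 := ⟨_, rfl⟩
  obtain ⟨Kc, hKc⟩ : ∃ Kc : ℝ, Kc = 4 ^ J * (4 * (2 * 2 ^ A * 3 ^ B)) := ⟨_, rfl⟩
  have hlog := (Real.tendsto_log_atTop.comp (tendsto_natCast_atTop_atTop (R := ℝ))).eventually_ge_atTop (4 * Kc + 4)
  rw [Filter.eventually_atTop] at hlog
  obtain ⟨n1, hn1⟩ := hlog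
  obtain ⟨n2, hn2⟩ := exists_nat_gt (max X₀ 1)
  refine ⟨max n1 (max (n2 ^ 2) (max ((Z + 1) ^ (J + 1)) (max (a.natAbs ^ 2) 3))), fun N hN z k y hz hk hyN hq hy => ?_⟩
  have b1 : n1 ≤ N := le_trans (le_max_left _ _) hN
  have b2 : n2 ^ 2 ≤ N := le_trans (le_trans (le_max_left _ _) (le_max_right _ _)) hN
  have b3 : (Z + 1) ^ (J + 1) ≤ N := le_trans (le_trans (le_trans (le_max_left _ _) (le_max_right _ _)) (le_max_right _ _)) hN
  have b4 : a.natAbs ^ 2 ≤ N := le_trans (le_trans (le_trans (le_trans (le_max_left _ _) (le_max_right _ _)) (le_max_right _ _)) (le_max_right _ _)) hN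
  have b5 : 3 ≤ N := le_trans (le_trans (le_trans (le_trans (le_max_right _ _) (le_max_right _ _)) (le_max_right _ _)) (le_max_right _ _)) hN
  have hzZ : Z ≤ z := by
    by_contra h
    push Not at h
    have : (z + 1) ^ (J + 1) ≤ (Z + 1) ^ (J + 1) := Nat.pow_le_pow_left (by omega) _
    omega
  have hzP : P ≤ z := by omega
  have hzc : 2 * c.natAbs * J ≤ z := by omega
  have hay : a.natAbs ≤ y := by
    have : a.natAbs ^ 2 ≤ y ^ 2 := b4.trans hy
    exact (Nat.pow_le_pow_iff_left (by norm_num)).1 this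
  have hn2y : n2 ≤ y := (Nat.pow_le_pow_iff_left (by norm_num)).1 (b2.trans hy)
  have hX₀y : X₀ ≤ y := by
    have h1 : (n2 : ℝ) ≤ y := by exact_mod_cast hn2y
    linarith [le_max_left X₀ 1]
  have hy1 : (1 : ℝ) ≤ y := by
    have h1 : (n2 : ℝ) ≤ y := by exact_mod_cast hn2y
    linarith [le_max_right X₀ 1]
  have hfk : 1 ≤ f k := hf.pos k hk
  have hfk' : (1 : ℝ) ≤ f k := by exact_mod_cast hfk
  -- the set of values
  obtain ⟨U, hU⟩ : ∃ U, U = UU f a Good z k y := ⟨_, rfl⟩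
  have hUm : ∀ u ∈ U, 1 ≤ u ∧ u ≤ y ∧ Squarefree u ∧ Rough z u ∧ 0 < (f k : ℤ) * f u + a ∧
      ¬ Good ((f k : ℤ) * f u + a).toNat := by
    intro u hu
    rw [hU, UU, mem_filter, mem_Icc] at hu
    exact ⟨hu.1.1, hu.1.2, hu.2⟩
  have hom : ∀ u ∈ U, u.primeFactors.card ≤ J := by
    intro u hu
    obtain ⟨h1, h2, h3, h4, h5, h6⟩ := hUm u hu
    exact omega_le hz h4 h1 (h2.trans hyN)
  have hsz : ∀ u ∈ U, f u ≤ 2 * y := by
    intro u hu
    obtain ⟨h1, h2, h3, h4, h5, h6⟩ := hUm u hu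
    have := size hf hP hzP hzc h3 h4 (hom u hu)
    omega
  obtain ⟨V, hV⟩ : ∃ V, V = U.image f := ⟨_, rfl⟩
  have hVm : ∀ v ∈ V, 1 ≤ v ∧ v ≤ 2 * y := by
    intro v hv
    rw [hV, mem_image] at hv
    obtain ⟨u, hu, rfl⟩ := hv
    exact ⟨hf.pos u (hUm u hu).1, hsz u hu⟩
  -- the bound for V
  obtain ⟨X, hX⟩ : ∃ X : ℝ, X = f k * (2 * y) + a.natAbs := ⟨_, rfl⟩
  have hyX : (y : ℝ) ≤ X := by
    rw [hX]
    have : (0 : ℝ) ≤ a.natAbs := Nat.cast_nonneg _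
    nlinarith
  have hqX : (f k : ℝ) ^ κ ≤ X := by
    have h1 : (f k : ℝ) ^ κ ≤ y := by exact_mod_cast hq
    exact h1.trans hyX
  have hVc := hX₀ X (hX₀y.trans hyX) (f k) hfk hqX V (by
    intro v hv
    rw [hV, mem_image] at hv
    obtain ⟨u, hu, rfl⟩ := hv
    obtain ⟨h1, h2, h3, h4, h5, h6⟩ := hUm u hu
    refine ⟨h5, ?_, h6⟩
    rw [hX]
    push_cast
    have e1 : (f u : ℝ) ≤ 2 * y := by exact_mod_cast hsz u hu
    have e2 : (a : ℝ) ≤ (a.natAbs : ℝ) := by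
      have : a ≤ (a.natAbs : ℤ) := Int.le_natAbs
      calc (a : ℝ) ≤ (((a.natAbs : ℕ) : ℤ) : ℝ) := Int.cast_le.2 this
        _ = (a.natAbs : ℝ) := Int.cast_natCast _
    nlinarith)
  obtain ⟨L, hL⟩ : ∃ L, L = Real.log N := ⟨_, rfl⟩
  have hL4 : 4 * Kc + 4 ≤ L := by
    rw [hL]
    exact hn1 N b1
  have hKc0 : 0 ≤ Kc := by rw [hKc]; positivity
  have hLpos : 0 < L := by linarith
  have hlogX : L / 2 ≤ Real.log X := by
    have h1 : L ≤ 2 * Real.log y := by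
      rw [hL, ← Real.log_rpow (by linarith)]
      apply Real.log_le_log
      · exact_mod_cast (by omega : 0 < N)
      · have : (N : ℝ) ≤ (y : ℝ) ^ 2 := by exact_mod_cast hy
        rw [show (2 : ℝ) = ((2 : ℕ) : ℝ) by norm_num, Real.rpow_natCast]
        exact this
    have h2 : Real.log y ≤ Real.log X := Real.log_le_log (by linarith) hyX
    linarith
  have hVc2 : (V.card : ℝ) ≤ 3 * y * (2 ^ A / L ^ A) := by
    refine hVc.trans ?_
    have h1 : (L / 2) ^ A ≤ Real.log X ^ A := pow_le_pow_left₀ (by positivity) hlogX A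
    have h2 : X ≤ f k * (3 * y) := by
      rw [hX]
      have : (a.natAbs : ℝ) ≤ y := by exact_mod_cast hay
      nlinarith
    calc X / (f k * Real.log X ^ A) ≤ (f k * (3 * y)) / (f k * (L / 2) ^ A) := by
          apply div_le_div₀ (by positivity) h2 (by positivity)
          exact mul_le_mul_of_nonneg_left h1 (by linarith)
      _ = 3 * y * (2 ^ A / L ^ A) := by
          rw [div_pow]
          field_simp
  -- the fibres
  have hfib : (U.card : ℝ) ≤ ∑ v ∈ V, 2 ^ J * (v.divisors.card : ℝ) ^ J := by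
    have h1 : U.card = ∑ v ∈ V, (U.filter (fun u => f u = v)).card := by
      apply card_eq_sum_card_fiberwise
      intro u hu
      rw [hV, mem_coe, mem_image]
      exact ⟨u, hu, rfl⟩
    rw [h1]
    push_cast
    apply sum_le_sum
    intro v hv
    have h2 := fiber hf hP (z := z) (J := J) (v := v) hzP (hVm v hv).1 (U.filter (fun u => f u = v))
      (fun u hu => (hUm u (mem_filter.1 hu).1).2.2.1) (fun u hu => (hUm u (mem_filter.1 hu).1).2.2.2.1)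
      (fun u hu => hom u (mem_filter.1 hu).1) (fun u hu => (mem_filter.1 hu).2)
    have h3 : 1 ≤ v.divisors.card := by
      rw [Nat.one_le_iff_ne_zero, Finset.card_ne_zero]
      exact ⟨1, Nat.one_mem_divisors.2 (by have := (hVm v hv).1; omega)⟩
    have h4 : (v.divisors.card + 1) ^ J ≤ (2 * v.divisors.card) ^ J := Nat.pow_le_pow_left (by omega) J
    have h5 : (((U.filter (fun u => f u = v)).card : ℕ) : ℝ) ≤ (((2 * v.divisors.card) ^ J : ℕ) : ℝ) := by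
      exact_mod_cast h2.trans h4
    refine h5.trans (le_of_eq ?_)
    push_cast
    rw [mul_pow]
  have hmom : ∑ v ∈ V, (2 ^ J * (v.divisors.card : ℝ) ^ J) ^ 2 ≤ 4 ^ J * (2 * y * (3 * L) ^ B) := by
    have h1 := Pool.Agent.TH935.LD.tau_pow_sum (J * 2) (2 * y)
    have h2 : ∑ v ∈ V, (2 ^ J * (v.divisors.card : ℝ) ^ J) ^ 2 = 4 ^ J * ∑ v ∈ V, (v.divisors.card : ℝ) ^ (J * 2) := by
      rw [mul_sum]
      apply sum_congr rfl
      intro v _
      rw [mul_pow, ← pow_mul, ← pow_mul, mul_comm J 2, pow_mul]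
      norm_num
    rw [h2]
    apply mul_le_mul_of_nonneg_left _ (by positivity)
    have h3 : ∑ v ∈ V, (v.divisors.card : ℝ) ^ (J * 2) ≤ ∑ v ∈ Icc 1 (2 * y), (v.divisors.card : ℝ) ^ (J * 2) := by
      apply sum_le_sum_of_subset_of_nonneg
      · intro v hv
        rw [mem_Icc]
        exact hVm v hv
      · intro v _ _
        positivity
    refine h3.trans (h1.trans ?_)
    rw [← hB]
    push_cast
    apply mul_le_mul_of_nonneg_left _ (by linarith)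
    apply pow_le_pow_left₀
    · have : 0 ≤ Real.log (2 * y) := Real.log_nonneg (by linarith)
      linarith
    · have h5 : Real.log (2 * y) ≤ Real.log 2 + L := by
        rw [Real.log_mul (by norm_num) (by linarith), hL]
        have : Real.log y ≤ Real.log N := Real.log_le_log (by linarith) (by exact_mod_cast hyN)
        linarith
      have := Real.log_two_lt_d9
      linarith
  have hfin := cauchy_card V (fun v => 2 ^ J * (v.divisors.card : ℝ) ^ J) _ hmom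
  have h7 : (U.card : ℝ) ^ 2 ≤ (3 * y * (2 ^ A / L ^ A)) * (4 ^ J * (2 * y * (3 * L) ^ B)) := by
    calc (U.card : ℝ) ^ 2 ≤ (∑ v ∈ V, 2 ^ J * (v.divisors.card : ℝ) ^ J) ^ 2 := pow_le_pow_left₀ (Nat.cast_nonneg _) hfib 2
      _ ≤ _ := hfin
      _ ≤ _ := mul_le_mul_of_nonneg_right hVc2 (by positivity)
  have h8 : (3 * (y : ℝ) * (2 ^ A / L ^ A)) * (4 ^ J * (2 * y * (3 * L) ^ B)) ≤ (y / L ^ 2) ^ 2 := by
    have e1 : (3 * (y : ℝ) * (2 ^ A / L ^ A)) * (4 ^ J * (2 * y * (3 * L) ^ B)) =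
        (3 * 4 ^ J * (2 * 2 ^ A * 3 ^ B)) * y ^ 2 / L ^ 6 := by
      rw [hA, mul_pow, pow_add L]
      field_simp
      
    rw [e1, div_pow, div_le_div_iff₀ (by positivity) (by positivity)]
    have e2 : 3 * 4 ^ J * (2 * 2 ^ A * 3 ^ B) ≤ Kc := by
      rw [hKc]
      have : (0 : ℝ) ≤ 4 ^ J * (2 * 2 ^ A * 3 ^ B) := by positivity
      nlinarith
    have e3 : Kc ≤ L ^ 2 := by nlinarith
    calc 3 * 4 ^ J * (2 * 2 ^ A * 3 ^ B) * (y : ℝ) ^ 2 * (L ^ 2) ^ 2 ≤ L ^ 2 * (y : ℝ) ^ 2 * (L ^ 2) ^ 2 := by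
          apply mul_le_mul_of_nonneg_right _ (by positivity)
          exact mul_le_mul_of_nonneg_right (e2.trans e3) (by positivity)
      _ = (y : ℝ) ^ 2 * L ^ 6 := by ring
  have h9 : (U.card : ℝ) ≤ y / L ^ 2 := by
    exact (pow_le_pow_iff_left₀ (Nat.cast_nonneg _) (by positivity) (by norm_num)).1 (h7.trans h8)
  rw [← hU, ← hL]
  exact h9

end Pool.Agent.N733.TD
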