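import Mathlib
import Pool.Agent.Y883.GJ.Pairs2
import Pool.Agent.Y883.GJ.AsmC
import Pool.Agent.Y883.T4.Gold
import Pool.Agent.W93.GB3
import Pool.Agent.N733.TD.A

set_option autoImplicit false

/-! Differences in the classes `a mod q`, all lengths at once (helper733). -/

namespace Pool.Agent.N733.TD

open Finset Classical Filter Topology
open Pool.Agent.Y883.GJ (PS PairGood badp)
open Pool.Agent.H560R3.GB (sing C₂)
open Pool.Agent.W93.GB (sh)

lemma prod_dv_le (S : Finset ℕ) : (∀ p ∈ S, 3 ≤ p) → ∏ p ∈ S, ((p : ℝ) - 1) / ((p : ℝ) - 2) ≤ S.card + 1 := by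
  induction S using Finset.induction_on_max with
  | empty => intro _; simp
  | insert a s ha ih =>
    intro h
    have ha' : a ∉ s := fun h' => lt_irrefl a (ha a h')
    rw [prod_insert ha', card_insert_of_notMem ha']
    have h1 := ih (fun p hp => h p (mem_insert_of_mem hp))
    have h2 : s.card ≤ a - 3 := by
      have : s ⊆ Ico 3 a := by
        intro p hp
        rw [mem_Ico]
        exact ⟨h p (mem_insert_of_mem hp), ha p hp⟩
      have := card_le_card this
      rwa [Nat.card_Ico] at this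
    have h3 : 3 ≤ a := h a (mem_insert_self _ _)
    have h4 : (s.card : ℝ) + 1 ≤ (a : ℝ) - 2 := by
      have : s.card + 3 ≤ a := by omega
      have : (s.card : ℝ) + 3 ≤ a := by exact_mod_cast this
      linarith
    have h5 : (0 : ℝ) < (s.card : ℝ) + 1 := by positivity
    have h6 : ((a : ℝ) - 1) / ((a : ℝ) - 2) ≤ ((s.card : ℝ) + 2) / (s.card + 1) := by
      rw [div_le_div_iff₀ (by linarith) h5]
      nlinarith
    push_cast
    calc ((a : ℝ) - 1) / ((a : ℝ) - 2) * ∏ p ∈ s, ((p : ℝ) - 1) / ((p : ℝ) - 2)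
        ≤ (((s.card : ℝ) + 2) / (s.card + 1)) * (s.card + 1) := by
          apply mul_le_mul h6 h1
          · apply prod_nonneg
            intro p hp
            have : (3 : ℝ) ≤ p := by exact_mod_cast h p (mem_insert_of_mem hp)
            exact div_nonneg (by linarith) (by linarith)
          · positivity
      _ = s.card + 1 + 1 := by
          field_simp
          ring

lemma C2_le_one : C₂ ≤ 1 := by
  have := Pool.Agent.W93.GB.C2_le 2
  unfold Pool.Agent.W93.GB.Pz at this
  rw [show (Icc 3 2 : Finset ℕ) = ∅ by rfl] at this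
  simpa using this

lemma sing_le_log (n : ℕ) (hn : 3 ≤ n) : sing n ≤ 6 * Real.log n := by
  have h1 : sing n ≤ 2 * 1 * ((n.primeFactors.filter (fun p => 2 < p)).card + 1) := by
    unfold sing
    apply mul_le_mul
    · linarith [C2_le_one]
    · apply prod_dv_le
      intro p hp
      exact (mem_filter.1 hp).2
    · apply prod_nonneg
      intro p hp
      have : (3 : ℝ) ≤ p := by exact_mod_cast (mem_filter.1 hp).2
      exact div_nonneg (by linarith) (by linarith)
    · norm_num
  have h2 : 3 ^ (n.primeFactors.filter (fun p => 2 < p)).card ≤ n := by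
    calc 3 ^ (n.primeFactors.filter (fun p => 2 < p)).card ≤ ∏ p ∈ n.primeFactors.filter (fun p => 2 < p), p := by
          apply Finset.pow_card_le_prod
          intro p hp
          exact (mem_filter.1 hp).2
      _ ≤ ∏ p ∈ n.primeFactors, p := by
          apply prod_le_prod_of_subset_of_one_le' (filter_subset _ _)
          intro p hp _
          exact (Nat.prime_of_mem_primeFactors hp).one_lt.le
      _ ≤ n := Nat.le_of_dvd (by omega) (Nat.prod_primeFactors_dvd n)
  have h3 : ((n.primeFactors.filter (fun p => 2 < p)).card : ℝ) * Real.log 3 ≤ Real.log n := by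
    rw [← Real.log_pow]
    apply Real.log_le_log (by positivity)
    exact_mod_cast h2
  have h4 : (1 : ℝ) ≤ Real.log 3 := by
    rw [Real.le_log_iff_exp_le (by norm_num)]
    have := Real.exp_one_lt_d9
    linarith
  have h5 : (1 : ℝ) ≤ Real.log n := by
    refine h4.trans (Real.log_le_log (by norm_num) ?_)
    exact_mod_cast hn
  have h6 : ((n.primeFactors.filter (fun p => 2 < p)).card : ℝ) ≤ Real.log n := by
    refine le_trans ?_ h3
    exact le_mul_of_one_le_right (Nat.cast_nonneg _) h4
  linarith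

lemma tendsto_singZ (n : ℕ) (hn : 2 ∣ n) (hn0 : n ≠ 0) :
    Tendsto (fun z => Pool.Agent.H373R2.T7.singZ (sh n) z) atTop (𝓝 (sing n)) := by
  obtain ⟨K, hK⟩ : ∃ K : ℝ, K = (Nat.log 2 n : ℝ) := ⟨_, rfl⟩
  have hs := Pool.Agent.W93.GB.one_le_sing n
  -- upper: singZ ≤ sing / (1 - 1/z)
  have hz : Tendsto (fun z : ℕ => (z : ℝ)) atTop atTop := tendsto_natCast_atTop_atTop
  have t1 : Tendsto (fun z : ℕ => 1 - 1 / (z : ℝ)) atTop (𝓝 1) := by
    have : Tendsto (fun z : ℕ => 1 / (z : ℝ)) atTop (𝓝 0) := tendsto_const_nhds.div_atTop hz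
    simpa using tendsto_const_nhds.sub this
  have t2 : Tendsto (fun z : ℕ => sing n / (1 - 1 / (z : ℝ))) atTop (𝓝 (sing n)) := by
    have := (tendsto_const_nhds (x := sing n)).div t1 one_ne_zero
    rw [div_one] at this
    exact this
  have t3 : Tendsto (fun z : ℕ => Real.exp (-(K / ((z : ℝ) - 1))) * sing n) atTop (𝓝 (sing n)) := by
    have h1 : Tendsto (fun z : ℕ => (z : ℝ) - 1) atTop atTop := tendsto_atTop_add_const_right _ _ hz
    have h2 : Tendsto (fun z : ℕ => K / ((z : ℝ) - 1)) atTop (𝓝 0) := tendsto_const_nhds.div_atTop h1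
    have h3 : Tendsto (fun z : ℕ => Real.exp (-(K / ((z : ℝ) - 1)))) atTop (𝓝 (Real.exp (-0))) :=
      (Real.continuous_exp.tendsto _).comp h2.neg
    have := h3.mul_const (sing n)
    simpa using this
  refine tendsto_of_tendsto_of_tendsto_of_le_of_le' t3 t2 ?_ ?_
  · filter_upwards [eventually_ge_atTop 3] with z hz3
    have h1 := Pool.Agent.W93.GB.sing_le n z hn hn0 (by omega)
    rw [Real.exp_neg, inv_mul_le_iff₀ (Real.exp_pos _), hK]
    exact h1
  · filter_upwards [eventually_ge_atTop 3] with z hz3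
    have h1 := Pool.Agent.W93.GB.sing_ge n z hn hn0 (by omega)
    have h2 : (3 : ℝ) ≤ z := by exact_mod_cast hz3
    have h3 : 0 < 1 - 1 / (z : ℝ) := by
      rw [sub_pos, div_lt_one (by linarith)]
      linarith
    rw [le_div_iff₀ h3]
    linarith

lemma PS_mono {N M h : ℕ} (hNM : N ≤ M) : PS N h ≤ PS M h := by
  unfold Pool.Agent.Y883.GJ.PS
  apply sum_le_sum_of_subset_of_nonneg
  · intro n hn
    rw [mem_Icc] at hn ⊢
    omega
  · intro n _ _
    apply mul_nonneg ArithmeticFunction.vonMangoldt_nonneg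
    unfold Pool.Agent.H373R2.T7.lamI
    split_ifs
    · exact ArithmeticFunction.vonMangoldt_nonneg
    · exact le_rfl

lemma PS_nonneg (N h : ℕ) : 0 ≤ PS N h := by
  unfold Pool.Agent.Y883.GJ.PS
  apply sum_nonneg
  intro n _
  apply mul_nonneg ArithmeticFunction.vonMangoldt_nonneg
  unfold Pool.Agent.H373R2.T7.lamI
  split_ifs
  · exact ArithmeticFunction.vonMangoldt_nonneg
  · exact le_rfl

/-- the asymptotic formula for all lengths up to `h log ^ W h` -/
def LG (B W h : ℕ) : Prop := ∀ y : ℕ, (y : ℝ) ≤ h * Real.log h ^ W →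
  |PS (y + h) h - sing h * y| ≤ h / Real.log h ^ B

lemma pg {A N h : ℕ} (h2 : 2 ∣ h) (h0 : h ≠ 0) (hg : PairGood A N h) :
    |PS N h - sing h * ((N : ℝ) - h)| ≤ N / Real.log N ^ A := by
  obtain ⟨⟨S, hS1, hS2, -⟩, -⟩ := hg
  have := tendsto_nhds_unique hS1 (tendsto_singZ h h2 h0)
  rw [← this]
  exact hS2

end Pool.Agent.N733.TD
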