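import Mathlib
import Pool.Agent.N733.TD.C

set_option autoImplicit false

/-! Differences in the classes `a mod q`: the number of the exceptions (helper733). -/

namespace Pool.Agent.N733.TD

open Finset Classical Filter Topology
open Pool.Agent.Y883.GJ (PS PairGood badp)
open Pool.Agent.H560R3.GB (sing C₂)
open Pool.Agent.W93.GB (sh)

lemma real_ev (k : ℕ) (c a : ℝ) (ha : 0 < a) :
    ∃ x0 : ℝ, ∀ x : ℝ, x0 ≤ x → c * Real.log x ^ k ≤ x ^ a := by
  have h := (isLittleO_log_rpow_rpow_atTop (k : ℝ) ha).bound (show 0 < 1 / (|c| + 1) by positivity)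
  obtain ⟨x0, hx0⟩ := Filter.eventually_atTop.1 h
  refine ⟨max x0 1, fun x hx => ?_⟩
  have h1 := hx0 x (le_trans (le_max_left _ _) hx)
  have hx1 : 1 ≤ x := le_trans (le_max_right _ _) hx
  have h2 : 0 ≤ Real.log x := Real.log_nonneg hx1
  have h3 : 0 ≤ Real.log x ^ k := by positivity
  have h4 : 0 ≤ x ^ a := Real.rpow_nonneg (by linarith) a
  rw [Real.norm_eq_abs, Real.norm_eq_abs, Real.rpow_natCast, abs_of_nonneg h3,
    abs_of_nonneg h4, div_mul_eq_mul_div, one_mul, le_div_iff₀ (by positivity)] at h1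
  calc c * Real.log x ^ k ≤ (|c| + 1) * Real.log x ^ k := by
        apply mul_le_mul_of_nonneg_right _ (by positivity)
        linarith [le_abs_self c]
    _ ≤ x ^ a := by linarith

/-- one difference: the grid points suffice -/
lemma grid (h q : ℕ) (a : ℤ) (E₁ : ℝ) (Δ A₁ Jm : ℕ) (hΔ : 1 ≤ Δ) (h2 : 2 ∣ h) (h0 : 1 ≤ h) (hq : 1 ≤ q)
    (hha : (h : ℤ) ≡ a [ZMOD q])
    (hall : ∀ j : ℕ, j ≤ Jm + 1 → h < j * Δ + Δ → h ∉ badp A₁ (j * Δ) q (a % q).toNat)
    (hE : ∀ j : ℕ, j ≤ Jm + 1 → h ≤ j * Δ → ((j * Δ : ℕ) : ℝ) / Real.log ((j * Δ : ℕ) : ℝ) ^ A₁ ≤ E₁) (y : ℕ)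
    (hy : y + h ≤ Jm * Δ + (Δ - 1)) (hE0 : 0 ≤ E₁) :
    |PS (y + h) h - sing h * y| ≤ sing h * Δ + E₁ := by
  have hs := Pool.Agent.W93.GB.one_le_sing h
  obtain ⟨N, hN⟩ : ∃ N, N = y + h := ⟨_, rfl⟩
  obtain ⟨j, hj⟩ : ∃ j, j = N / Δ := ⟨_, rfl⟩
  have hj1 : j * Δ ≤ N := by rw [hj]; exact Nat.div_mul_le_self N Δ
  have hj2 : N < (j + 1) * Δ := by
    rw [hj]
    have := Nat.lt_div_mul_add (a := N) (b := Δ) (by omega)
    calc N < N / Δ * Δ + Δ := this
      _ = (N / Δ + 1) * Δ := by ring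
  have hjJ : j ≤ Jm := by
    rw [← hN] at hy
    by_contra hc
    push Not at hc
    have : (Jm + 1) * Δ ≤ j * Δ := Nat.mul_le_mul_right _ hc
    have e : (Jm + 1) * Δ = Jm * Δ + Δ := by ring
    omega
  have hmod : ∀ n : ℕ, h ≤ n → h ∉ badp A₁ n q (a % q).toNat → PairGood A₁ n h := by
    intro n hn hb
    unfold Pool.Agent.Y883.GJ.badp at hb
    rw [mem_filter, mem_Icc] at hb
    by_contra hc
    apply hb
    refine ⟨⟨h0, hn⟩, ?_, hc⟩
    have hq0 : (q : ℤ) ≠ 0 := by exact_mod_cast (by omega : q ≠ 0)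
    have e1 : (((a % q).toNat : ℕ) : ℤ) = a % q := Int.toNat_of_nonneg (Int.emod_nonneg _ hq0)
    have e2 : ((h % q : ℕ) : ℤ) = (((a % q).toNat % q : ℕ) : ℤ) := by
      rw [Int.natCast_mod, Int.natCast_mod, e1, Int.emod_emod_of_dvd _ (dvd_refl _)]
      exact hha
    exact_mod_cast e2
  have hNr : (N : ℝ) - h = y := by rw [hN]; push_cast; ring
  have hΔr : ((j + 1 : ℕ) * Δ : ℝ) = (j : ℝ) * Δ + Δ := by push_cast; ring
  have hj1r : (j : ℝ) * Δ ≤ N := by exact_mod_cast hj1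
  have hj2r : (N : ℝ) < (j : ℝ) * Δ + Δ := by
    have : (N : ℝ) < (((j + 1) * Δ : ℕ) : ℝ) := by exact_mod_cast hj2
    push_cast at this
    linarith
  rw [← hN, ← hNr]
  rw [abs_le]
  constructor
  · -- lower bound
    by_cases hc : h ≤ j * Δ
    · have g1 := pg h2 (by omega) (hmod (j * Δ) hc (hall j (by omega) (by omega)))
      have g2 := hE j (by omega) hc
      have g3 := (abs_le.1 g1).1
      have g4 : PS (j * Δ) h ≤ PS N h := PS_mono hj1
      push_cast at g3 g2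
      have g5 : sing h * ((N : ℝ) - h) ≤ sing h * ((j : ℝ) * Δ - h) + sing h * Δ := by
        rw [← mul_add]
        exact mul_le_mul_of_nonneg_left (by linarith) (by linarith)
      linarith
    · push Not at hc
      have g4 : 0 ≤ PS N h := PS_nonneg N h
      have hcr : (j : ℝ) * Δ < h := by exact_mod_cast hc
      have g5 : sing h * ((N : ℝ) - h) ≤ sing h * Δ := mul_le_mul_of_nonneg_left (by linarith) (by linarith)
      linarith
  · have hc : h ≤ (j + 1) * Δ := by omega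
    have g1 := pg h2 (by omega) (hmod ((j + 1) * Δ) hc (hall (j + 1) (by omega) (by omega)))
    have g2 := hE (j + 1) (by omega) hc
    have g3 := (abs_le.1 g1).2
    have g4 : PS N h ≤ PS ((j + 1) * Δ) h := PS_mono hj2.le
    push_cast at g3 g2
    have g5 : sing h * (((j : ℝ) + 1) * Δ - h) ≤ sing h * ((N : ℝ) - h) + sing h * Δ := by
      rw [← mul_add]
      exact mul_le_mul_of_nonneg_left (by linarith) (by linarith)
    linarith

theorem eb3 (a : ℤ) (ha : a ≠ 0) (B W A : ℕ) : EBk 3 a (fun h => 2 ∣ h → LG B W h) A := by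
  obtain ⟨G, hG⟩ : ∃ G, G = A + B + 3 := ⟨_, rfl⟩
  obtain ⟨A₁, hA₁⟩ : ∃ A₁, A₁ = A + B + 2 * W + G + 5 := ⟨_, rfl⟩
  obtain ⟨N₁, hp⟩ := Pool.Agent.Y883.GJ.pairs_every Pool.Agent.Y883.GJ.coreC_all Pool.Agent.Y883.GJ.model_all
    (1 / 10) (by norm_num) A₁ 1
  obtain ⟨c1, hc1⟩ := real_ev (A + G + 3) 1 (1 / 6) (by norm_num)
  have hlog := Real.tendsto_log_atTop.eventually_ge_atTop (2 * (a.natAbs : ℝ) + 1024 * 2 ^ A₁ + 12)
  rw [eventually_atTop] at hlog
  obtain ⟨c2, hc2⟩ := hlog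
  refine ⟨max c1 (max c2 (((N₁ : ℝ) + 3) ^ 2)), fun X hX q hq hqX V hV => ?_⟩
  have hX1 : c1 ≤ X := le_trans (le_max_left _ _) hX
  have hX2 : c2 ≤ X := le_trans (le_trans (le_max_left _ _) (le_max_right _ _)) hX
  have hX3 : ((N₁ : ℝ) + 3) ^ 2 ≤ X := le_trans (le_trans (le_max_right _ _) (le_max_right _ _)) hX
  have hN₁0 : (0 : ℝ) ≤ N₁ := Nat.cast_nonneg _
  have hX9 : (9 : ℝ) ≤ X := by nlinarith
  have hX0 : (0 : ℝ) < X := by linarith
  obtain ⟨L, hL⟩ : ∃ L, L = Real.log X := ⟨_, rfl⟩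
  have hLb := hc2 X hX2
  have hLp := hc1 X hX1
  rw [← hL] at hLb hLp
  have hpw : (1 : ℝ) ≤ 2 ^ A₁ := one_le_pow₀ (by norm_num)
  have han : (0 : ℝ) ≤ a.natAbs := Nat.cast_nonneg _
  have hL12 : 12 ≤ L := by linarith
  have hLA : 1024 * 2 ^ A₁ ≤ L := by linarith
  have hLa : 2 * (a.natAbs : ℝ) ≤ L := by linarith
  have hL0 : 0 < L := by linarith
  have hL1 : 1 ≤ L := by linarith
  have hq0 : (0 : ℝ) < q := by exact_mod_cast hq
  have hq1 : (1 : ℝ) ≤ q := by exact_mod_cast hq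
  -- powers of X
  obtain ⟨x6, hx6⟩ : ∃ x6 : ℝ, x6 = X ^ ((1 : ℝ) / 6) := ⟨_, rfl⟩
  have hx6X : x6 ^ 6 = X := by
    rw [hx6, ← Real.rpow_natCast, ← Real.rpow_mul hX0.le]
    norm_num
  have hx60 : 0 < x6 := by rw [hx6]; positivity
  rw [one_mul, ← hx6] at hLp
  have hx61 : 1 ≤ x6 := le_trans (one_le_pow₀ hL1) hLp
  have hqx : (q : ℝ) ≤ x6 ^ 2 := by
    have : (q : ℝ) ^ 3 ≤ (x6 ^ 2) ^ 3 := by rw [← pow_mul]; norm_num; rw [hx6X]; exact hqX
    exact (pow_le_pow_iff_left₀ hq0.le (by positivity) (by norm_num)).1 this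
  -- the grid
  obtain ⟨Δ, hΔ⟩ : ∃ Δ : ℕ, Δ = ⌊X / L ^ G⌋₊ := ⟨_, rfl⟩
  have hΔle : (Δ : ℝ) ≤ X / L ^ G := by rw [hΔ]; exact Nat.floor_le (by positivity)
  have hLG : L ^ G ≤ x6 := le_trans (pow_le_pow_right₀ hL1 (by omega)) hLp
  have hXG : x6 ^ 5 ≤ X / L ^ G := by
    rw [le_div_iff₀ (by positivity), ← hx6X]
    calc x6 ^ 5 * L ^ G ≤ x6 ^ 5 * x6 := mul_le_mul_of_nonneg_left hLG (by positivity)
      _ = x6 ^ 6 := by ring
  have hx65 : 2 ≤ x6 ^ 5 := by
    have h1 : 2 ≤ x6 := by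
      calc (2 : ℝ) ≤ L := by linarith
        _ = L ^ 1 := (pow_one L).symm
        _ ≤ L ^ (A + G + 3) := pow_le_pow_right₀ hL1 (by omega)
        _ ≤ x6 := hLp
    calc (2 : ℝ) ≤ x6 := h1
      _ = x6 ^ 1 := (pow_one _).symm
      _ ≤ x6 ^ 5 := pow_le_pow_right₀ hx61 (by norm_num)
  have hΔge : X / L ^ G / 2 ≤ Δ := by
    have := Nat.lt_floor_add_one (X / L ^ G)
    rw [← hΔ] at this
    linarith
  have hΔ1 : 1 ≤ Δ := by
    have : (1 : ℝ) ≤ Δ := by linarith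
    exact_mod_cast this
  have hΔ0 : (0 : ℝ) < Δ := by exact_mod_cast hΔ1
  obtain ⟨Jm, hJm⟩ : ∃ Jm : ℕ, Jm = ⌈4 * L ^ (W + G)⌉₊ := ⟨_, rfl⟩
  have hJm1 : 4 * L ^ (W + G) ≤ Jm := by rw [hJm]; exact Nat.le_ceil _
  have hJm2 : (Jm : ℝ) ≤ 4 * L ^ (W + G) + 1 := by rw [hJm]; exact (Nat.ceil_lt_add_one (by positivity)).le
  have hWG1 : 1 ≤ L ^ (W + G) := one_le_pow₀ hL1
  have hJm3 : (Jm : ℝ) + 2 ≤ 8 * L ^ (W + G) := by linarith
  -- Y
  obtain ⟨Y, hY⟩ : ∃ Y : ℝ, Y = X / L ^ (A + 1) := ⟨_, rfl⟩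
  have hYpos : 0 < Y := by rw [hY]; positivity
  -- sizes of the grid points
  have hup : ∀ j : ℕ, j ≤ Jm + 1 → ((j * Δ : ℕ) : ℝ) ≤ 8 * X * L ^ W := by
    intro j hj
    have h1 : (j : ℝ) ≤ 8 * L ^ (W + G) := by
      have : (j : ℝ) ≤ Jm + 1 := by exact_mod_cast hj
      linarith
    push_cast
    calc (j : ℝ) * Δ ≤ (8 * L ^ (W + G)) * (X / L ^ G) := mul_le_mul h1 hΔle hΔ0.le (by positivity)
      _ = 8 * X * L ^ W := by
        rw [pow_add]
        field_simp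
  have hlow : ∀ n : ℕ, x6 ^ 5 ≤ n → L / 2 ≤ Real.log n ∧ N₁ ≤ n ∧ (q : ℝ) ≤ (n : ℝ) ^ ((1 : ℝ) / 2 - 1 / 10) := by
    intro n hn
    have hn0 : (0 : ℝ) < n := by linarith
    refine ⟨?_, ?_, ?_⟩
    · have h1 : X ≤ (n : ℝ) ^ 2 := by
        rw [← hx6X]
        calc x6 ^ 6 ≤ x6 ^ 10 := pow_le_pow_right₀ hx61 (by norm_num)
          _ = (x6 ^ 5) ^ 2 := by ring
          _ ≤ (n : ℝ) ^ 2 := pow_le_pow_left₀ (by positivity) hn 2
      have h2 : L ≤ 2 * Real.log n := by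
        rw [hL]
        calc Real.log X ≤ Real.log ((n : ℝ) ^ 2) := Real.log_le_log hX0 h1
          _ = 2 * Real.log n := by rw [Real.log_pow]; norm_num
      linarith
    · have h1 : ((N₁ : ℝ) + 3) ^ 2 ≤ (x6 ^ 5) ^ 2 := by
        calc ((N₁ : ℝ) + 3) ^ 2 ≤ X := hX3
          _ = x6 ^ 6 := hx6X.symm
          _ ≤ x6 ^ 10 := pow_le_pow_right₀ hx61 (by norm_num)
          _ = (x6 ^ 5) ^ 2 := by ring
      have h2 : (N₁ : ℝ) + 3 ≤ x6 ^ 5 := (pow_le_pow_iff_left₀ (by positivity) (by positivity) (by norm_num)).1 h1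
      have h3 : (N₁ : ℝ) ≤ n := by linarith
      exact_mod_cast h3
    · have h1 : (x6 ^ 5) ^ ((1 : ℝ) / 2 - 1 / 10) = x6 ^ 2 := by
        rw [← Real.rpow_natCast, ← Real.rpow_mul hx60.le, ← Real.rpow_natCast]
        norm_num
      calc (q : ℝ) ≤ x6 ^ 2 := hqx
        _ = (x6 ^ 5) ^ ((1 : ℝ) / 2 - 1 / 10) := h1.symm
        _ ≤ _ := Real.rpow_le_rpow (by positivity) hn (by norm_num)
  -- the set of differences
  obtain ⟨H, hH⟩ : ∃ H : Finset ℕ, H = V.image (fun v : ℕ => ((q : ℤ) * v + a).toNat) := ⟨_, rfl⟩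
  have hcard : V.card = H.card := by
    rw [hH]
    symm
    apply card_image_of_injOn
    intro v hv w hw h
    have e1 := (hV v hv).1
    have e2 := (hV w hw).1
    simp only at h
    have e3 : (q : ℤ) * v + a = (q : ℤ) * w + a := by omega
    have e4 : (q : ℤ) * v = (q : ℤ) * w := by linarith
    have e5 : (v : ℤ) = w := mul_left_cancel₀ (by exact_mod_cast (by omega : q ≠ 0)) e4
    exact_mod_cast e5
  have hHm : ∀ h ∈ H, 1 ≤ h ∧ (h : ℝ) ≤ X ∧ (h : ℤ) ≡ a [ZMOD q] ∧ 2 ∣ h ∧ ¬ LG B W h := by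
    intro h hh
    rw [hH, mem_image] at hh
    obtain ⟨v, hv, rfl⟩ := hh
    obtain ⟨e1, e2, e3⟩ := hV v hv
    have e4 : ((((q : ℤ) * v + a).toNat : ℕ) : ℤ) = (q : ℤ) * v + a := Int.toNat_of_nonneg e1.le
    push Not at e3
    refine ⟨by omega, ?_, ?_, e3.1, e3.2⟩
    · have e5 : ((((q : ℤ) * v + a).toNat : ℕ) : ℝ) = (((q : ℤ) * v + a : ℤ) : ℝ) := by
        rw [← Int.cast_natCast, e4]
      rw [e5]
      exact e2
    · rw [e4, Int.modEq_iff_dvd]
      exact ⟨-(v : ℤ), by ring⟩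
  obtain ⟨a', ha'⟩ : ∃ a' : ℕ, a' = (a % q).toNat := ⟨_, rfl⟩
  have hqz : (q : ℤ) ≠ 0 := by exact_mod_cast (by omega : q ≠ 0)
  have ha'z : (a' : ℤ) = a % q := by rw [ha']; exact Int.toNat_of_nonneg (Int.emod_nonneg _ hqz)
  have hgcd : (Nat.gcd a' q : ℝ) ≤ a.natAbs := by
    have h1 : Nat.gcd a' q = Int.gcd a q := by
      rw [← Int.gcd_natCast_natCast, ha'z]
      exact Int.gcd_emod _ _
    rw [h1]
    have : Int.gcd a q ≤ a.natAbs := Nat.le_of_dvd (Int.natAbs_pos.2 ha) (Nat.gcd_dvd_left _ _)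
    exact_mod_cast this
  -- small ones
  obtain ⟨H₀, hH₀⟩ : ∃ H₀ : Finset ℕ, H₀ = H.filter (fun h : ℕ => (h : ℝ) ≤ Y) := ⟨_, rfl⟩
  have hcH₀ : (H₀.card : ℝ) ≤ Y / q + 1 := by
    apply Pool.Agent.Y883.T4.class_le 0 q a' hq H₀ Y hYpos.le
    intro h hh
    rw [hH₀, mem_filter] at hh
    refine ⟨?_, hh.2⟩
    have h1 := (hHm h hh.1).2.2.1
    have e2 : ((h % q : ℕ) : ℤ) = ((a' % q : ℕ) : ℤ) := by
      rw [Int.natCast_mod, Int.natCast_mod, ha'z, Int.emod_emod_of_dvd _ (dvd_refl _)]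
      exact h1
    exact_mod_cast e2
  -- the bad sets
  obtain ⟨F, hF⟩ : ∃ F : Finset ℕ, F = (range (Jm + 2)).filter (fun j => x6 ^ 5 ≤ ((j * Δ : ℕ) : ℝ)) := ⟨_, rfl⟩
  have hFb : ∀ j ∈ F, ((badp A₁ (j * Δ) q a').card : ℝ) ≤ 8 * X * L ^ W * (2 ^ A₁ / (q * L ^ A₁)) := by
    intro j hj
    rw [hF, mem_filter, mem_range] at hj
    obtain ⟨l1, l2, l3⟩ := hlow _ hj.2
    have h1 := hp (j * Δ) l2 q hq l3 a' (by
      rw [pow_one]
      linarith)
    refine h1.trans ?_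
    have h2 : (L / 2) ^ A₁ ≤ Real.log ((j * Δ : ℕ) : ℝ) ^ A₁ := pow_le_pow_left₀ (by positivity) l1 A₁
    calc ((j * Δ : ℕ) : ℝ) / (q * Real.log ((j * Δ : ℕ) : ℝ) ^ A₁) ≤ (8 * X * L ^ W) / (q * (L / 2) ^ A₁) := by
          apply div_le_div₀ (by positivity) (hup j (by omega)) (by positivity)
          exact mul_le_mul_of_nonneg_left h2 hq0.le
      _ = 8 * X * L ^ W * (2 ^ A₁ / (q * L ^ A₁)) := by
          rw [div_pow]
          field_simp
  have hcF : (F.card : ℝ) ≤ 8 * L ^ (W + G) := by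
    have : F.card ≤ Jm + 2 := by
      rw [hF]
      exact (card_filter_le _ _).trans (by rw [card_range])
    have : (F.card : ℝ) ≤ Jm + 2 := by exact_mod_cast this
    linarith
  have hsub : H ⊆ H₀ ∪ F.biUnion (fun j => badp A₁ (j * Δ) q a') := by
    intro h hh
    rw [mem_union, mem_biUnion]
    by_contra hc
    push Not at hc
    obtain ⟨hc1', hc2'⟩ := hc
    obtain ⟨m1, m2, m3, m4, m5⟩ := hHm h hh
    have hhY : Y < h := by
      by_contra h'
      push Not at h'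
      apply hc1'
      rw [hH₀, mem_filter]
      exact ⟨hh, h'⟩
    apply m5
    intro y hy
    have hhr : (1 : ℝ) ≤ h := by exact_mod_cast m1
    have hlh : Real.log h ≤ L := by rw [hL]; exact Real.log_le_log (by linarith) m2
    have hlh0 : 0 ≤ Real.log h := Real.log_nonneg hhr
    have hyX : (y : ℝ) + h ≤ 2 * X * L ^ W := by
      have h1 : (h : ℝ) * Real.log h ^ W ≤ X * L ^ W :=
        mul_le_mul m2 (pow_le_pow_left₀ hlh0 hlh W) (by positivity) hX0.le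
      have h2 : X ≤ X * L ^ W := le_mul_of_one_le_right hX0.le (one_le_pow₀ hL1)
      linarith
    have hyJ : y + h ≤ Jm * Δ + (Δ - 1) := by
      have h1 : 2 * X * L ^ W ≤ Jm * Δ := by
        calc 2 * X * L ^ W = (4 * L ^ (W + G)) * (X / L ^ G / 2) := by
              rw [pow_add]
              field_simp
              ring
          _ ≤ Jm * Δ := mul_le_mul hJm1 hΔge (by positivity) (Nat.cast_nonneg _)
      have h2 : ((y + h : ℕ) : ℝ) ≤ ((Jm * Δ : ℕ) : ℝ) := by push_cast; linarith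
      have : y + h ≤ Jm * Δ := by exact_mod_cast h2
      omega
    have hYbig : x6 ^ 5 + X / L ^ G ≤ Y := by
      have h1 : X / L ^ G ≤ Y / 2 := by
        rw [hY, div_div, div_le_div_iff_of_pos_left hX0 (by positivity) (by positivity)]
        calc L ^ (A + 1) * 2 ≤ L ^ (A + 1) * L := mul_le_mul_of_nonneg_left (by linarith) (by positivity)
          _ = L ^ (A + 2) := by ring
          _ ≤ L ^ G := pow_le_pow_right₀ hL1 (by omega)
      linarith
    have hbig : ∀ j : ℕ, h < j * Δ + Δ → x6 ^ 5 ≤ ((j * Δ : ℕ) : ℝ) := by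
      intro j hj
      have : (h : ℝ) < (j : ℝ) * Δ + Δ := by exact_mod_cast hj
      push_cast
      linarith
    have hE1 : ∀ j : ℕ, j ≤ Jm + 1 → h ≤ j * Δ → ((j * Δ : ℕ) : ℝ) / Real.log ((j * Δ : ℕ) : ℝ) ^ A₁ ≤
        8 * X * L ^ W * (2 ^ A₁ / L ^ A₁) := by
      intro j hj hjh
      obtain ⟨l1, -, -⟩ := hlow _ (hbig j (by omega))
      have h2 : (L / 2) ^ A₁ ≤ Real.log ((j * Δ : ℕ) : ℝ) ^ A₁ := pow_le_pow_left₀ (by positivity) l1 A₁
      calc ((j * Δ : ℕ) : ℝ) / Real.log ((j * Δ : ℕ) : ℝ) ^ A₁ ≤ (8 * X * L ^ W) / (L / 2) ^ A₁ :=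
            div_le_div₀ (by positivity) (hup j hj) (by positivity) h2
        _ = 8 * X * L ^ W * (2 ^ A₁ / L ^ A₁) := by
            rw [div_pow]
            field_simp
    have hgr := grid h q a (8 * X * L ^ W * (2 ^ A₁ / L ^ A₁)) Δ A₁ Jm hΔ1 m4 m1 hq m3 (by
      intro j hj hjh
      rw [← ha']
      apply hc2' j
      rw [hF, mem_filter, mem_range]
      exact ⟨by omega, hbig j hjh⟩) hE1 y hyJ (by positivity)
    refine hgr.trans ?_
    -- final comparison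
    have hh3 : 3 ≤ h := by
      have h1 : (2 : ℝ) < h := by
        have : 0 ≤ X / L ^ G := by positivity
        linarith
      have : 2 < h := by exact_mod_cast h1
      omega
    have hlh1 : 1 ≤ Real.log h := by
      rw [Real.le_log_iff_exp_le (by linarith)]
      have := Real.exp_one_lt_d9
      have : (3 : ℝ) ≤ h := by exact_mod_cast hh3
      linarith
    have f1 : sing h * Δ ≤ Y / (2 * L ^ B) := by
      have s1 : sing h ≤ 6 * L := (sing_le_log h hh3).trans (by linarith)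
      have s2 := Pool.Agent.W93.GB.one_le_sing h
      calc sing h * Δ ≤ (6 * L) * (X / L ^ G) := mul_le_mul s1 hΔle hΔ0.le (by positivity)
        _ ≤ Y / (2 * L ^ B) := by
          rw [hY, hG, mul_div_assoc', div_div, div_le_div_iff₀ (by positivity) (by positivity)]
          have e : L ^ (A + B + 3) = L ^ (A + 1) * L ^ B * (L * L) := by ring
          rw [e]
          have : 6 * L * X * (L ^ (A + 1) * (2 * L ^ B)) = X * (L ^ (A + 1) * L ^ B) * (L * 12) := by ring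
          rw [this]
          have : X * (L ^ (A + 1) * L ^ B * (L * L)) = X * (L ^ (A + 1) * L ^ B) * (L * L) := by ring
          rw [this]
          apply mul_le_mul_of_nonneg_left _ (by positivity)
          exact mul_le_mul_of_nonneg_left hL12 hL0.le
    have f2 : 8 * X * L ^ W * (2 ^ A₁ / L ^ A₁) ≤ Y / (2 * L ^ B) := by
      rw [hY, div_div, mul_div_assoc', div_le_div_iff₀ (by positivity) (by positivity)]
      have e1 : L ^ (A + 1) * L ^ B * L ^ W * L ≤ L ^ A₁ := by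
        rw [← pow_add, ← pow_add, ← pow_succ]
        exact pow_le_pow_right₀ hL1 (by omega)
      calc 8 * X * L ^ W * 2 ^ A₁ * (L ^ (A + 1) * (2 * L ^ B)) = X * ((L ^ (A + 1) * L ^ B * L ^ W) * (16 * 2 ^ A₁)) := by ring
        _ ≤ X * ((L ^ (A + 1) * L ^ B * L ^ W) * L) := by
            apply mul_le_mul_of_nonneg_left _ hX0.le
            apply mul_le_mul_of_nonneg_left _ (by positivity)
            linarith
        _ ≤ X * L ^ A₁ := mul_le_mul_of_nonneg_left e1 hX0.le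
    have f3 : Y / L ^ B ≤ h / Real.log h ^ B := by
      apply div_le_div₀ (by linarith) hhY.le (by positivity)
      exact pow_le_pow_left₀ hlh0 hlh B
    have f4 : Y / (2 * L ^ B) + Y / (2 * L ^ B) = Y / L ^ B := by
      field_simp
      ring
    linarith
  have hfin : (H.card : ℝ) ≤ (Y / q + 1) + (8 * L ^ (W + G)) * (8 * X * L ^ W * (2 ^ A₁ / (q * L ^ A₁))) := by
    have h1 : (H.card : ℝ) ≤ (H₀.card : ℝ) + ∑ j ∈ F, ((badp A₁ (j * Δ) q a').card : ℝ) := by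
      have h2 := (card_le_card hsub).trans ((card_union_le _ _).trans (Nat.add_le_add_left card_biUnion_le _))
      exact_mod_cast h2
    refine h1.trans (add_le_add hcH₀ ?_)
    calc ∑ j ∈ F, ((badp A₁ (j * Δ) q a').card : ℝ) ≤ ∑ j ∈ F, (8 * X * L ^ W * (2 ^ A₁ / (q * L ^ A₁))) :=
          sum_le_sum hFb
      _ = (F.card : ℝ) * (8 * X * L ^ W * (2 ^ A₁ / (q * L ^ A₁))) := by rw [sum_const, nsmul_eq_mul]
      _ ≤ _ := mul_le_mul_of_nonneg_right hcF (by positivity)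
  have hv : (V.card : ℝ) = H.card := by exact_mod_cast hcard
  rw [hv, ← hL]
  refine hfin.trans ?_
  have g1 : Y / q ≤ X / (q * L ^ A) / 4 := by
    rw [hY, div_div, div_div, div_le_div_iff_of_pos_left hX0 (by positivity) (by positivity)]
    calc q * L ^ A * 4 ≤ q * L ^ A * L := mul_le_mul_of_nonneg_left (by linarith) (by positivity)
      _ = L ^ (A + 1) * q := by ring
  have g2 : 1 ≤ X / (q * L ^ A) / 4 := by
    rw [div_div, le_div_iff₀ (by positivity), one_mul, ← hx6X]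
    have h1 : L ^ A * 4 ≤ x6 := by
      calc L ^ A * 4 ≤ L ^ A * L := mul_le_mul_of_nonneg_left (by linarith) (by positivity)
        _ = L ^ (A + 1) := by ring
        _ ≤ L ^ (A + G + 3) := pow_le_pow_right₀ hL1 (by omega)
        _ ≤ x6 := hLp
    calc (q : ℝ) * L ^ A * 4 = q * (L ^ A * 4) := by ring
      _ ≤ x6 ^ 2 * x6 := mul_le_mul hqx h1 (by positivity) (by positivity)
      _ = x6 ^ 3 := by ring
      _ ≤ x6 ^ 6 := pow_le_pow_right₀ hx61 (by norm_num)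
  have g3 : (8 * L ^ (W + G)) * (8 * X * L ^ W * (2 ^ A₁ / (q * L ^ A₁))) ≤ X / (q * L ^ A) / 4 := by
    rw [mul_div_assoc', mul_div_assoc', div_div, div_le_div_iff₀ (by positivity) (by positivity)]
    have e1 : L ^ A * L ^ (W + G) * L ^ W * L ≤ L ^ A₁ := by
      rw [← pow_add, ← pow_add, ← pow_succ]
      exact pow_le_pow_right₀ hL1 (by omega)
    calc 8 * L ^ (W + G) * (8 * X * L ^ W * 2 ^ A₁) * (q * L ^ A * 4) =
          X * q * ((L ^ A * L ^ (W + G) * L ^ W) * (256 * 2 ^ A₁)) := by ring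
      _ ≤ X * q * ((L ^ A * L ^ (W + G) * L ^ W) * L) := by
          apply mul_le_mul_of_nonneg_left _ (by positivity)
          apply mul_le_mul_of_nonneg_left _ (by positivity)
          linarith
      _ ≤ X * q * L ^ A₁ := mul_le_mul_of_nonneg_left e1 (by positivity)
      _ = X * (q * L ^ A₁) := by ring
  have g4 : 0 ≤ X / (q * L ^ A) := by positivity
  linarith

end Pool.Agent.N733.TD
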