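import Mathlib
import Pool.Agent.N733.TD.D

set_option autoImplicit false

/-! The number of prime pairs with a given difference, in windows (helper733). -/

namespace Pool.Agent.N733.TD

open Finset Filter Topology
open Pool.Agent.Y883.GJ (PS)
open Pool.Agent.H560R3.GB (sing)

/-- The number of primes `p` with `y₁ < p ≤ y₂` such that `p + h` is a prime. -/
def dcount (h y₁ y₂ : ℕ) : ℕ := ((Ioc y₁ y₂).filter (fun p => p.Prime ∧ (p + h).Prime)).card

/-- the formula for the prime pairs in windows -/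
def DF (ε : ℝ) (W h : ℕ) : Prop :=
  ∀ y₁ y₂ : ℕ, y₁ < y₂ → (y₂ : ℝ) ≤ h * Real.log h ^ W → (h : ℝ) / Real.log h ^ W ≤ (y₂ : ℝ) - y₁ →
    |(dcount h y₁ y₂ : ℝ) - sing h * ((y₂ : ℝ) - y₁) / Real.log h ^ 2| ≤
      ε * (sing h * ((y₂ : ℝ) - y₁) / Real.log h ^ 2)

/-- the weighted sum over the pairs -/
noncomputable def VV (h y : ℕ) : ℝ :=
  ∑ n ∈ Icc 1 y, ArithmeticFunction.vonMangoldt n * ArithmeticFunction.vonMangoldt (n + h)

lemma PS_eq (y h : ℕ) : PS (y + h) h = VV h y := by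
  classical
  unfold Pool.Agent.Y883.GJ.PS Pool.Agent.H373R2.T7.lamI VV
  have e1 : ∑ n ∈ Icc 1 (y + h), ArithmeticFunction.vonMangoldt n *
      (if 1 ≤ (n : ℤ) - h then ArithmeticFunction.vonMangoldt ((n : ℤ) - h).toNat else 0) =
      ∑ n ∈ (Icc 1 (y + h)).filter (fun n : ℕ => 1 ≤ (n : ℤ) - h),
        ArithmeticFunction.vonMangoldt n * ArithmeticFunction.vonMangoldt ((n : ℤ) - h).toNat := by
    rw [sum_filter]
    apply sum_congr rfl
    intro n _
    split_ifs
    · rfl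
    · rw [mul_zero]
  rw [e1]
  symm
  apply sum_nbij (fun n => n + h)
  · intro n hn
    rw [mem_Icc] at hn
    rw [mem_filter, mem_Icc]
    omega
  · intro x _ y _ hxy
    simp only at hxy
    omega
  · intro n hn
    rw [mem_coe, mem_filter, mem_Icc] at hn
    refine ⟨n - h, ?_, ?_⟩
    · rw [mem_coe, mem_Icc]
      omega
    · simp only
      omega
  · intro n _
    have e2 : (((n + h : ℕ) : ℤ) - h).toNat = n := by
      rw [Nat.cast_add, add_sub_cancel_right, Int.toNat_natCast]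
    rw [e2, mul_comm]

lemma VV_sub (h y₁ y₂ : ℕ) (hy : y₁ ≤ y₂) : VV h y₂ - VV h y₁ =
    ∑ n ∈ Ioc y₁ y₂, ArithmeticFunction.vonMangoldt n * ArithmeticFunction.vonMangoldt (n + h) := by
  have hd : Icc 1 y₂ = Icc 1 y₁ ∪ Ioc y₁ y₂ := by
    ext n
    simp only [mem_Icc, mem_union, mem_Ioc]
    omega
  unfold VV
  rw [hd, sum_union, add_sub_cancel_left]
  rw [disjoint_left]
  intro n hn hn'
  rw [mem_Icc] at hn
  rw [mem_Ioc] at hn'
  omega

lemma np_sum (N : ℕ) (hN : 1 ≤ N) :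
    ∑ n ∈ Icc 1 N, (if n.Prime then 0 else ArithmeticFunction.vonMangoldt n) ≤ 2 * √(N : ℝ) * Real.log N := by
  have hNr : (1 : ℝ) ≤ N := by exact_mod_cast hN
  have h1 := Chebyshev.psi_sub_theta_le hNr
  rw [Chebyshev.psi_sub_theta_eq_sum_not_prime, Nat.floor_natCast] at h1
  have e : Ioc 0 N = Icc 1 N := by
    ext n
    simp only [mem_Ioc, mem_Icc]
    omega
  rw [e, sum_filter] at h1
  refine le_trans (le_of_eq ?_) h1
  apply sum_congr rfl
  intro n _
  by_cases h : n.Prime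
  · rw [if_pos h, if_neg (not_not.2 h)]
  · rw [if_neg h, if_pos h]

lemma D_le (h y₁ y₂ : ℕ) (hy : y₁ < y₂) :
    ∑ n ∈ Ioc y₁ y₂, ArithmeticFunction.vonMangoldt n * ArithmeticFunction.vonMangoldt (n + h) ≤
      Real.log ((y₂ + h : ℕ) : ℝ) ^ 2 * dcount h y₁ y₂ + 4 * √((y₂ + h : ℕ) : ℝ) * Real.log ((y₂ + h : ℕ) : ℝ) ^ 2 := by
  obtain ⟨N, hN⟩ : ∃ N, N = y₂ + h := ⟨_, rfl⟩
  obtain ⟨L, hL⟩ : ∃ L, L = Real.log (N : ℝ) := ⟨_, rfl⟩
  have hL0 : 0 ≤ L := by rw [hL]; exact Real.log_natCast_nonneg _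
  have hN1 : 1 ≤ N := by omega
  have hle : ∀ n : ℕ, n ≤ N → ArithmeticFunction.vonMangoldt n ≤ L := by
    intro n hn
    rcases Nat.eq_zero_or_pos n with h0 | h0
    · rw [h0, ArithmeticFunction.map_zero]
      exact hL0
    · rw [hL]
      exact ArithmeticFunction.vonMangoldt_le_log.trans
        (Real.log_le_log (by exact_mod_cast h0) (by exact_mod_cast hn))
  rw [← hN, ← hL]
  have key : ∀ n ∈ Ioc y₁ y₂, ArithmeticFunction.vonMangoldt n * ArithmeticFunction.vonMangoldt (n + h) ≤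
      (if n.Prime ∧ (n + h).Prime then L ^ 2 else 0) + L * (if n.Prime then 0 else ArithmeticFunction.vonMangoldt n) +
        L * (if (n + h).Prime then 0 else ArithmeticFunction.vonMangoldt (n + h)) := by
    intro n hn
    rw [mem_Ioc] at hn
    have l1 := hle n (by omega)
    have l2 := hle (n + h) (by omega)
    have p1 : 0 ≤ ArithmeticFunction.vonMangoldt n := ArithmeticFunction.vonMangoldt_nonneg
    have p2 : 0 ≤ ArithmeticFunction.vonMangoldt (n + h) := ArithmeticFunction.vonMangoldt_nonneg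
    by_cases a1 : n.Prime
    · by_cases a2 : (n + h).Prime
      · rw [if_pos ⟨a1, a2⟩, if_pos a1, if_pos a2]
        nlinarith
      · rw [if_neg (fun hc => a2 hc.2), if_pos a1, if_neg a2]
        nlinarith
    · rw [if_neg (fun hc => a1 hc.1), if_neg a1]
      have : 0 ≤ L * (if (n + h).Prime then 0 else ArithmeticFunction.vonMangoldt (n + h)) := by
        split_ifs
        · simp
        · positivity
      nlinarith
  refine (sum_le_sum key).trans ?_
  rw [sum_add_distrib, sum_add_distrib, ← mul_sum, ← mul_sum]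
  have s1 : ∑ n ∈ Ioc y₁ y₂, (if n.Prime ∧ (n + h).Prime then L ^ 2 else 0) = L ^ 2 * dcount h y₁ y₂ := by
    rw [← sum_filter, sum_const, nsmul_eq_mul, mul_comm]
    rfl
  have nn : ∀ n : ℕ, 0 ≤ (if n.Prime then 0 else ArithmeticFunction.vonMangoldt n) := by
    intro n
    split_ifs
    · exact le_rfl
    · exact ArithmeticFunction.vonMangoldt_nonneg
  have s2 : ∑ n ∈ Ioc y₁ y₂, (if n.Prime then 0 else ArithmeticFunction.vonMangoldt n) ≤ 2 * √(N : ℝ) * L := by
    rw [hL]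
    refine le_trans ?_ (np_sum N hN1)
    apply sum_le_sum_of_subset_of_nonneg
    · intro n hn
      rw [mem_Ioc] at hn
      rw [mem_Icc]
      omega
    · intro n _ _
      exact nn n
  have s3 : ∑ n ∈ Ioc y₁ y₂, (if (n + h).Prime then 0 else ArithmeticFunction.vonMangoldt (n + h)) ≤
      2 * √(N : ℝ) * L := by
    rw [hL]
    refine le_trans ?_ (np_sum N hN1)
    have e : ∑ n ∈ Ioc y₁ y₂, (if (n + h).Prime then 0 else ArithmeticFunction.vonMangoldt (n + h)) =
        ∑ n ∈ (Ioc y₁ y₂).image (fun n => n + h), (if n.Prime then 0 else ArithmeticFunction.vonMangoldt n) := by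
      rw [sum_image]
      intro x _ y _ hxy
      simp only at hxy
      omega
    rw [e]
    apply sum_le_sum_of_subset_of_nonneg
    · intro n hn
      rw [mem_image] at hn
      obtain ⟨m, hm, rfl⟩ := hn
      rw [mem_Ioc] at hm
      rw [mem_Icc]
      omega
    · intro n _ _
      exact nn n
  rw [s1]
  nlinarith

lemma count_le (h y₁ y₂ : ℕ) (Y l l₁ : ℝ) (hh : 2 ≤ h) (hY : 1 < Y) (hl : l = Real.log h) (hl₁ : l₁ = Real.log Y) :
    (dcount h y₁ y₂ : ℝ) * (l₁ * l) ≤ Y * (l₁ * l) +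
      ∑ n ∈ Ioc y₁ y₂, ArithmeticFunction.vonMangoldt n * ArithmeticFunction.vonMangoldt (n + h) := by
  have hhr : (2 : ℝ) ≤ h := by exact_mod_cast hh
  have hl0 : 0 < l := by rw [hl]; exact Real.log_pos (by linarith)
  have hl10 : 0 < l₁ := by rw [hl₁]; exact Real.log_pos hY
  obtain ⟨P, hP⟩ : ∃ P, P = (Ioc y₁ y₂).filter (fun p => p.Prime ∧ (p + h).Prime) := ⟨_, rfl⟩
  have h1 : dcount h y₁ y₂ = P.card := by rw [hP]; rfl
  have h2 : P.card = (P.filter (fun p : ℕ => (p : ℝ) ≤ Y)).card + (P.filter (fun p : ℕ => ¬ (p : ℝ) ≤ Y)).card :=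
    (card_filter_add_card_filter_not _).symm
  have h3 : ((P.filter (fun p : ℕ => (p : ℝ) ≤ Y)).card : ℝ) ≤ Y := by
    have : P.filter (fun p : ℕ => (p : ℝ) ≤ Y) ⊆ Icc 1 ⌊Y⌋₊ := by
      intro p hp
      rw [mem_filter, hP, mem_filter] at hp
      rw [mem_Icc]
      exact ⟨hp.1.2.1.pos, Nat.le_floor hp.2⟩
    have := card_le_card this
    rw [Nat.card_Icc, Nat.add_sub_cancel] at this
    calc ((P.filter (fun p : ℕ => (p : ℝ) ≤ Y)).card : ℝ) ≤ (⌊Y⌋₊ : ℝ) := by exact_mod_cast this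
      _ ≤ Y := Nat.floor_le (by linarith)
  have h4 : ((P.filter (fun p : ℕ => ¬ (p : ℝ) ≤ Y)).card : ℝ) * (l₁ * l) ≤
      ∑ n ∈ Ioc y₁ y₂, ArithmeticFunction.vonMangoldt n * ArithmeticFunction.vonMangoldt (n + h) := by
    rw [← nsmul_eq_mul, ← sum_const]
    calc ∑ p ∈ P.filter (fun p : ℕ => ¬ (p : ℝ) ≤ Y), l₁ * l ≤ ∑ p ∈ P.filter (fun p : ℕ => ¬ (p : ℝ) ≤ Y),
          ArithmeticFunction.vonMangoldt p * ArithmeticFunction.vonMangoldt (p + h) := by
          apply sum_le_sum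
          intro p hp
          rw [mem_filter, hP, mem_filter] at hp
          obtain ⟨⟨-, p1, p2⟩, p3⟩ := hp
          push Not at p3
          rw [ArithmeticFunction.vonMangoldt_apply_prime p1, ArithmeticFunction.vonMangoldt_apply_prime p2]
          apply mul_le_mul _ _ hl0.le
          · exact Real.log_natCast_nonneg _
          · rw [hl₁]
            exact Real.log_le_log (by linarith) p3.le
          · rw [hl]
            apply Real.log_le_log (by linarith)
            exact_mod_cast Nat.le_add_left _ _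
      _ ≤ _ := by
          apply sum_le_sum_of_subset_of_nonneg
          · intro p hp
            rw [mem_filter, hP, mem_filter] at hp
            exact hp.1.1
          · intro n _ _
            exact mul_nonneg ArithmeticFunction.vonMangoldt_nonneg ArithmeticFunction.vonMangoldt_nonneg
  have h5 : (dcount h y₁ y₂ : ℝ) = ((P.filter (fun p : ℕ => (p : ℝ) ≤ Y)).card : ℝ) +
      ((P.filter (fun p : ℕ => ¬ (p : ℝ) ≤ Y)).card : ℝ) := by
    rw [h1, h2]
    push_cast
    rfl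
  rw [h5, add_mul]
  have : 0 ≤ l₁ * l := by positivity
  nlinarith

/-- from the weighted sums to the numbers of pairs -/
theorem conv (ε : ℝ) (hε : 0 < ε) (W : ℕ) : ∃ h₀ : ℕ, ∀ h : ℕ, h₀ ≤ h → LG (W + 1) W h → DF ε W h := by
  obtain ⟨δ, hδ⟩ : ∃ δ : ℝ, δ = min ε 1 / 10 := ⟨_, rfl⟩
  have hm : 0 < min ε 1 := lt_min hε one_pos
  have hδ0 : 0 < δ := by rw [hδ]; positivity
  have hδ1 : δ ≤ 1 / 10 := by
    rw [hδ]
    linarith [min_le_right ε 1]
  have hδε : 10 * δ ≤ ε := by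
    rw [hδ]
    linarith [min_le_left ε 1]
  -- thresholds
  have t1 : ∀ᶠ t : ℝ in atTop, Real.log t ≤ δ / (W + 4) * t := by
    have := Real.isLittleO_log_id_atTop.bound (show 0 < δ / ((W : ℝ) + 4) by positivity)
    filter_upwards [this, eventually_ge_atTop 1] with t ht h1
    rw [Real.norm_eq_abs, Real.norm_eq_abs, id, abs_of_nonneg (Real.log_nonneg h1), abs_of_nonneg (by linarith)] at ht
    exact ht
  rw [eventually_atTop] at t1
  obtain ⟨T, hT⟩ := t1
  have hlog := (Real.tendsto_log_atTop.comp (tendsto_natCast_atTop_atTop (R := ℝ))).eventually_ge_atTop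
    (T ⊔ (4 / δ))
  rw [eventually_atTop] at hlog
  obtain ⟨n1, hn1⟩ := hlog
  obtain ⟨c2, hc2⟩ := real_ev (3 * W + 8) (64 / δ ^ 2) 1 one_pos
  obtain ⟨n2, hn2⟩ := exists_nat_ge c2
  refine ⟨max n1 (max n2 3), fun h hh hLG y₁ y₂ hy hyW hw => ?_⟩
  have hh1 : n1 ≤ h := le_trans (le_max_left _ _) hh
  have hh2 : n2 ≤ h := le_trans (le_trans (le_max_left _ _) (le_max_right _ _)) hh
  have hh3 : 3 ≤ h := le_trans (le_trans (le_max_right _ _) (le_max_right _ _)) hh
  have hhr : (3 : ℝ) ≤ h := by exact_mod_cast hh3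
  have hh0 : (0 : ℝ) < h := by linarith
  obtain ⟨l, hl⟩ : ∃ l, l = Real.log h := ⟨_, rfl⟩
  have hlb : T ⊔ (4 / δ) ≤ l := by rw [hl]; exact hn1 h hh1
  have hlT : T ≤ l := le_trans le_sup_left hlb
  have hl4 : 4 / δ ≤ l := le_trans le_sup_right hlb
  have hlδ : 4 ≤ l * δ := by rwa [div_le_iff₀ hδ0] at hl4
  have hl40 : 40 ≤ l := by nlinarith
  have hl0 : 0 < l := by linarith
  have hl1 : 1 ≤ l := by linarith
  have hll := hT l hlT
  have hc := hc2 h (hn2.trans (by exact_mod_cast hh2))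
  rw [Real.rpow_one, ← hl] at hc
  have hlogl0 : 0 ≤ Real.log l := Real.log_nonneg hl1
  have hW4 : (0 : ℝ) < (W : ℝ) + 4 := by positivity
  have hWll : ((W : ℝ) + 4) * Real.log l ≤ δ * l := by
    calc ((W : ℝ) + 4) * Real.log l ≤ (W + 4) * (δ / (W + 4) * l) := mul_le_mul_of_nonneg_left hll hW4.le
      _ = δ * l := by field_simp
  obtain ⟨s, hs⟩ : ∃ s, s = sing h := ⟨_, rfl⟩
  have hs1 : 1 ≤ s := by rw [hs]; exact Pool.Agent.W93.GB.one_le_sing h
  obtain ⟨w, hwd⟩ : ∃ w : ℝ, w = (y₂ : ℝ) - y₁ := ⟨_, rfl⟩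
  rw [← hwd, ← hl] at hw
  rw [← hl] at hyW
  have hw0 : 0 < w := lt_of_lt_of_le (by positivity) hw
  -- the window sum
  obtain ⟨D, hD⟩ : ∃ D, D = ∑ n ∈ Ioc y₁ y₂, ArithmeticFunction.vonMangoldt n * ArithmeticFunction.vonMangoldt (n + h) :=
    ⟨_, rfl⟩
  have hD1 : |D - s * w| ≤ 2 * (h / l ^ (W + 1)) := by
    have e1 := hLG y₂ (by rw [← hl]; exact hyW)
    have e2 := hLG y₁ (by
      rw [← hl]
      have : (y₁ : ℝ) ≤ y₂ := by exact_mod_cast hy.le
      linarith)
    rw [PS_eq, ← hl, ← hs] at e1 e2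
    have e3 : D - s * w = (VV h y₂ - s * y₂) - (VV h y₁ - s * y₁) := by
      rw [hD, ← VV_sub h y₁ y₂ hy.le, hwd]
      ring
    rw [e3]
    have := abs_sub (VV h y₂ - s * y₂) (VV h y₁ - s * y₁)
    linarith
  have hsw : 0 < s * w := by positivity
  have hE : 2 * ((h : ℝ) / l ^ (W + 1)) ≤ δ * (s * w) := by
    have e1 : 2 * ((h : ℝ) / l ^ (W + 1)) = 2 / l * (h / l ^ W) := by
      rw [pow_succ]
      field_simp
    rw [e1]
    have e2 : 2 / l ≤ δ := by
      rw [div_le_iff₀ hl0]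
      linarith
    calc 2 / l * (h / l ^ W) ≤ δ * w := mul_le_mul e2 hw (by positivity) hδ0.le
      _ ≤ δ * (s * w) := by
        apply mul_le_mul_of_nonneg_left _ hδ0.le
        nlinarith
  have hDlo : (1 - δ) * (s * w) ≤ D := by
    have := (abs_le.1 hD1).1
    linarith
  have hDup : D ≤ (1 + δ) * (s * w) := by
    have := (abs_le.1 hD1).2
    linarith
  obtain ⟨c, hcd⟩ : ∃ c : ℝ, c = (dcount h y₁ y₂ : ℝ) := ⟨_, rfl⟩
  have hc0 : 0 ≤ c := by rw [hcd]; positivity
  obtain ⟨M, hM⟩ : ∃ M, M = s * w / l ^ 2 := ⟨_, rfl⟩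
  have hM0 : 0 < M := by rw [hM]; positivity
  -- upper bound
  have hup : c ≤ (1 + 5 * δ) * M := by
    obtain ⟨Y, hY⟩ : ∃ Y : ℝ, Y = h / l ^ (W + 3) := ⟨_, rfl⟩
    have hY1 : 1 < Y := by
      rw [hY, lt_div_iff₀ (by positivity), one_mul]
      have e1 : (1 : ℝ) < 64 / δ ^ 2 := by
        rw [lt_div_iff₀ (by positivity)]
        nlinarith
      have e2 : l ^ (W + 3) ≤ l ^ (3 * W + 8) := pow_le_pow_right₀ hl1 (by omega)
      have e3 : 0 < l ^ (3 * W + 8) := by positivity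
      nlinarith
    have hY0 : 0 < Y := by linarith
    obtain ⟨l₁, hl₁⟩ : ∃ l₁, l₁ = Real.log Y := ⟨_, rfl⟩
    have hl₁lo : (1 - δ) * l ≤ l₁ := by
      rw [hl₁, hY, Real.log_div hh0.ne' (by positivity), Real.log_pow, ← hl]
      push_cast
      have : ((W : ℝ) + 3) * Real.log l ≤ ((W : ℝ) + 4) * Real.log l :=
        mul_le_mul_of_nonneg_right (by linarith) hlogl0
      linarith
    have hl₁0 : 0 < l₁ := lt_of_lt_of_le (mul_pos (by linarith) hl0) hl₁lo
    have e1 := count_le h y₁ y₂ Y l l₁ (by omega) hY1 hl hl₁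
    rw [← hD, ← hcd] at e1
    have e2 : c - Y ≤ D / (l₁ * l) := by
      rw [le_div_iff₀ (by positivity)]
      linarith
    have e3 : D / (l₁ * l) ≤ (1 + 3 * δ) * M := by
      rw [div_le_iff₀ (by positivity), hM]
      have e4 : (1 + δ) * (s * w) ≤ (1 + 3 * δ) * (1 - δ) * (s * w) := by
        apply mul_le_mul_of_nonneg_right _ hsw.le
        nlinarith
      have e5 : (1 + 3 * δ) * (s * w / l ^ 2) * ((1 - δ) * l * l) ≤ (1 + 3 * δ) * (s * w / l ^ 2) * (l₁ * l) := by
        apply mul_le_mul_of_nonneg_left _ (by positivity)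
        exact mul_le_mul_of_nonneg_right hl₁lo hl0.le
      have e6 : (1 + 3 * δ) * (s * w / l ^ 2) * ((1 - δ) * l * l) = (1 + 3 * δ) * (1 - δ) * (s * w) := by
        field_simp
      linarith
    have e7 : Y ≤ 2 * δ * M := by
      rw [hY, hM]
      have e8 : (h : ℝ) / l ^ (W + 3) = 1 / l * (h / l ^ W) / l ^ 2 := by
        rw [pow_add]
        field_simp
      have e10 : 2 * δ * (s * w / l ^ 2) = (2 * δ * (s * w)) / l ^ 2 := by ring
      rw [e8, e10]
      apply div_le_div_of_nonneg_right _ (by positivity)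
      have e9 : 1 / l ≤ 2 * δ := by
        rw [div_le_iff₀ hl0]
        linarith
      calc 1 / l * (h / l ^ W) ≤ 2 * δ * w := mul_le_mul e9 hw (by positivity) (by positivity)
        _ ≤ 2 * δ * (s * w) := by
          apply mul_le_mul_of_nonneg_left _ (by positivity)
          nlinarith
    linarith
  -- lower bound
  have hlo : (1 - 5 * δ) * M ≤ c := by
    obtain ⟨N, hN⟩ : ∃ N : ℕ, N = y₂ + h := ⟨_, rfl⟩
    obtain ⟨k, hk⟩ : ∃ k, k = Real.log (N : ℝ) := ⟨_, rfl⟩
    have hNup : (N : ℝ) ≤ 2 * h * l ^ W := by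
      rw [hN]
      push_cast
      have : (h : ℝ) ≤ h * l ^ W := le_mul_of_one_le_right hh0.le (one_le_pow₀ hl1)
      linarith
    have hN0 : (0 : ℝ) < N := by
      rw [hN]; push_cast
      have : (0 : ℝ) ≤ y₂ := Nat.cast_nonneg _
      linarith
    have hN1 : (1 : ℝ) ≤ N := by
      rw [hN]; push_cast
      have : (0 : ℝ) ≤ y₂ := Nat.cast_nonneg _
      linarith
    have hk0 : 0 ≤ k := by rw [hk]; exact Real.log_nonneg hN1
    have hkup : k ≤ (1 + δ) * l := by
      have e1 : k ≤ Real.log (2 * h * l ^ W) := by rw [hk]; exact Real.log_le_log hN0 hNup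
      rw [Real.log_mul (by positivity) (by positivity), Real.log_mul (by norm_num) (by positivity), Real.log_pow,
        ← hl] at e1
      have e2 := Real.log_two_lt_d9
      have e3 : (1 : ℝ) ≤ Real.log l := by
        rw [Real.le_log_iff_exp_le hl0]
        have := Real.exp_one_lt_d9
        linarith
      nlinarith
    have e1 := D_le h y₁ y₂ hy
    rw [← hN, ← hk, ← hD, ← hcd] at e1
    have e2 : 4 * √(N : ℝ) ≤ δ * M := by
      have e3 : (4 * √(N : ℝ)) ^ 2 ≤ (δ * (h / l ^ (W + 2))) ^ 2 := by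
        rw [mul_pow, Real.sq_sqrt hN0.le]
        calc (4 : ℝ) ^ 2 * N ≤ 4 ^ 2 * (2 * h * l ^ W) := mul_le_mul_of_nonneg_left hNup (by norm_num)
          _ ≤ (δ * (h / l ^ (W + 2))) ^ 2 := by
            rw [mul_div_assoc', div_pow, le_div_iff₀ (by positivity)]
            have e4 : 64 * l ^ (3 * W + 8) ≤ δ ^ 2 * h := by
              rw [div_mul_eq_mul_div, div_le_iff₀ (by positivity)] at hc
              linarith
            have e5 : l ^ W * (l ^ (W + 2)) ^ 2 ≤ l ^ (3 * W + 8) := by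
              rw [← pow_mul, ← pow_add]
              exact pow_le_pow_right₀ hl1 (by omega)
            calc (4 : ℝ) ^ 2 * (2 * h * l ^ W) * (l ^ (W + 2)) ^ 2 = h * (32 * (l ^ W * (l ^ (W + 2)) ^ 2)) := by ring
              _ ≤ h * (64 * l ^ (3 * W + 8)) := by
                  apply mul_le_mul_of_nonneg_left _ hh0.le
                  have : 0 ≤ l ^ (3 * W + 8) := by positivity
                  linarith
              _ ≤ h * (δ ^ 2 * h) := mul_le_mul_of_nonneg_left e4 hh0.le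
              _ = (δ * h) ^ 2 := by ring
      have e6 : 4 * √(N : ℝ) ≤ δ * (h / l ^ (W + 2)) :=
        (pow_le_pow_iff_left₀ (by positivity) (by positivity) (by norm_num)).1 e3
      refine e6.trans ?_
      apply mul_le_mul_of_nonneg_left _ hδ0.le
      rw [hM, pow_add, ← div_div]
      apply div_le_div_of_nonneg_right _ (by positivity)
      nlinarith
    have e3 : D ≤ k ^ 2 * (c + δ * M) := by
      have : k ^ 2 * (4 * √(N : ℝ)) ≤ k ^ 2 * (δ * M) := mul_le_mul_of_nonneg_left e2 (by positivity)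
      nlinarith
    have e4 : k ^ 2 ≤ ((1 + δ) * l) ^ 2 := pow_le_pow_left₀ hk0 hkup 2
    have e5 : D ≤ ((1 + δ) * l) ^ 2 * (c + δ * M) := e3.trans (mul_le_mul_of_nonneg_right e4 (by positivity))
    have e6 : (1 - δ) * M ≤ (1 + δ) ^ 2 * (c + δ * M) := by
      have e7 : (1 - δ) * M * l ^ 2 ≤ (1 + δ) ^ 2 * (c + δ * M) * l ^ 2 := by
        have : (1 - δ) * M * l ^ 2 = (1 - δ) * (s * w) := by
          rw [hM]
          field_simp
        rw [this]
        calc (1 - δ) * (s * w) ≤ D := hDlo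
          _ ≤ ((1 + δ) * l) ^ 2 * (c + δ * M) := e5
          _ = _ := by ring
      exact le_of_mul_le_mul_right e7 (by positivity)
    have e8 : (1 - 3 * δ) * M ≤ c + δ * M := by
      have e9 : (1 + δ) ^ 2 * ((1 - 3 * δ) * M) ≤ (1 + δ) ^ 2 * (c + δ * M) := by
        refine le_trans ?_ e6
        have : (1 + δ) ^ 2 * (1 - 3 * δ) ≤ 1 - δ := by nlinarith [sq_nonneg δ, pow_pos hδ0 3]
        nlinarith
      exact le_of_mul_le_mul_left e9 (by positivity)
    have : 0 < δ * M := by positivity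
    linarith
  rw [← hs, ← hwd, ← hl, ← hcd, ← hM]
  have hfin : 5 * δ * M ≤ ε * M := mul_le_mul_of_nonneg_right (by linarith) hM0.le
  rw [abs_le]
  constructor <;> linarith

end Pool.Agent.N733.TD
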