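import Mathlib
import Pool.Agent.N733.TD.B
import Pool.Agent.N733.TD.E

set_option autoImplicit false

/-! The exceptional differences in the classes `a mod q` (helper733). -/

namespace Pool.Agent.N733.TD

open Finset Classical Filter Topology
open Pool.Agent.H560R3.GB (sing)

theorem EBk_mono {κ : ℕ} (hκ : 2 ≤ κ) {a : ℤ} {Good Good' : ℕ → Prop} (h : ∃ h₀ : ℕ, ∀ n : ℕ, h₀ ≤ n → Good n → Good' n)
    (hE : ∀ A, EBk κ a Good A) (A : ℕ) : EBk κ a Good' A := by
  obtain ⟨h₀, hh⟩ := h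
  obtain ⟨X₀, hX₀⟩ := hE (A + 1)
  obtain ⟨c1, hc1⟩ := real_ev A (2 * (h₀ + 1)) (1 / 2) (by norm_num)
  have hlog := Real.tendsto_log_atTop.eventually_ge_atTop (2 : ℝ)
  rw [eventually_atTop] at hlog
  obtain ⟨c2, hc2⟩ := hlog
  refine ⟨max X₀ (max c1 (max c2 1)), fun X hX q hq hqX V hV => ?_⟩
  have hX1 : X₀ ≤ X := le_trans (le_max_left _ _) hX
  have hX2 : c1 ≤ X := le_trans (le_trans (le_max_left _ _) (le_max_right _ _)) hX
  have hX3 : c2 ≤ X := le_trans (le_trans (le_trans (le_max_left _ _) (le_max_right _ _)) (le_max_right _ _)) hX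
  have hX4 : 1 ≤ X := le_trans (le_trans (le_trans (le_max_right _ _) (le_max_right _ _)) (le_max_right _ _)) hX
  have hX0 : (0 : ℝ) < X := by linarith
  have hq0 : (0 : ℝ) < q := by exact_mod_cast hq
  have hq1 : (1 : ℝ) ≤ q := by exact_mod_cast hq
  obtain ⟨L, hL⟩ : ∃ L, L = Real.log X := ⟨_, rfl⟩
  have hL2 : 2 ≤ L := by rw [hL]; exact hc2 X hX3
  have hL0 : 0 < L := by linarith
  have hc := hc1 X hX2
  rw [← hL, ← Real.sqrt_eq_rpow] at hc
  have hqs : (q : ℝ) ≤ √X := by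
    apply Real.le_sqrt_of_sq_le
    refine le_trans ?_ hqX
    exact pow_le_pow_right₀ hq1 hκ
  obtain ⟨V₁, hV₁⟩ : ∃ V₁, V₁ = V.filter (fun v : ℕ => h₀ ≤ ((q : ℤ) * v + a).toNat) := ⟨_, rfl⟩
  obtain ⟨V₂, hV₂⟩ : ∃ V₂, V₂ = V.filter (fun v : ℕ => ¬ h₀ ≤ ((q : ℤ) * v + a).toNat) := ⟨_, rfl⟩
  have h1 := hX₀ X hX1 q hq hqX V₁ (by
    intro v hv
    rw [hV₁, mem_filter] at hv
    obtain ⟨e1, e2, e3⟩ := hV v hv.1
    exact ⟨e1, e2, fun hg => e3 (hh _ hv.2 hg)⟩)
  have h2 : V₂.card ≤ h₀ := by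
    calc V₂.card = (V₂.image (fun v : ℕ => ((q : ℤ) * v + a).toNat)).card := by
          symm
          apply card_image_of_injOn
          intro v hv w hw h
          rw [hV₂, mem_coe, mem_filter] at hv hw
          have e1 := (hV v hv.1).1
          have e2 := (hV w hw.1).1
          simp only at h
          have e3 : (q : ℤ) * v + a = (q : ℤ) * w + a := by omega
          have e4 : (q : ℤ) * v = (q : ℤ) * w := by linarith
          have e5 : (v : ℤ) = w := mul_left_cancel₀ (by exact_mod_cast (by omega : q ≠ 0)) e4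
          exact_mod_cast e5
      _ ≤ (range h₀).card := by
          apply card_le_card
          intro n hn
          rw [mem_image] at hn
          obtain ⟨v, hv, rfl⟩ := hn
          rw [hV₂, mem_filter] at hv
          rw [mem_range]
          omega
      _ = h₀ := card_range _
  have h3 : V.card = V₁.card + V₂.card := by
    rw [hV₁, hV₂]
    exact (card_filter_add_card_filter_not _).symm
  have h4 : (V.card : ℝ) ≤ X / (q * L ^ (A + 1)) + h₀ := by
    rw [← hL] at h1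
    rw [h3]
    push_cast
    have : (V₂.card : ℝ) ≤ h₀ := by exact_mod_cast h2
    linarith
  rw [← hL]
  refine h4.trans ?_
  have h5 : X / (q * L ^ (A + 1)) ≤ X / (q * L ^ A) / 2 := by
    rw [div_div, div_le_div_iff_of_pos_left hX0 (by positivity) (by positivity)]
    calc q * L ^ A * 2 ≤ q * L ^ A * L := mul_le_mul_of_nonneg_left hL2 (by positivity)
      _ = q * L ^ (A + 1) := by ring
  have h6 : (h₀ : ℝ) ≤ X / (q * L ^ A) / 2 := by
    rw [div_div, le_div_iff₀ (by positivity)]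
    have hs : √X * √X = X := Real.mul_self_sqrt hX0.le
    have hLA : 0 < L ^ A := by positivity
    calc (h₀ : ℝ) * (q * L ^ A * 2) = q * (2 * h₀ * L ^ A) := by ring
      _ ≤ √X * (2 * (h₀ + 1) * L ^ A) := by
          apply mul_le_mul hqs _ (by positivity) (Real.sqrt_nonneg _)
          apply mul_le_mul_of_nonneg_right _ hLA.le
          linarith
      _ ≤ √X * √X := mul_le_mul_of_nonneg_left hc (Real.sqrt_nonneg _)
      _ = X := hs
  linarith

/-- almost all values -/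
theorem diff_dens {f : ℕ → ℕ} {c : ℤ} (hf : Pool.Agent.N733.TG.SM f c) (a : ℤ) (ha : a ≠ 0) (η : ℝ) (hη : 0 < η) (W : ℕ)
    (ε : ℝ) (hε : 0 < ε) : ∃ N₀ : ℕ, ∀ N : ℕ, N₀ ≤ N →
      (((Icc 1 N).filter (fun m => ¬ (0 < (f m : ℤ) + a ∧ (2 ∣ ((f m : ℤ) + a).toNat →
        DF η W ((f m : ℤ) + a).toNat)))).card : ℝ) ≤ ε * N := by
  obtain ⟨h₀, hh⟩ := conv η hη W
  obtain ⟨N₀, h⟩ := dens hf a (fun n => 2 ∣ n → DF η W n) 3 (by norm_num)
    (EBk_mono (by norm_num) ⟨h₀, fun n hn hg h2 => hh n hn (hg h2)⟩ (fun A => eb3 a ha (W + 1) W A)) ε hε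
  exact ⟨N₀, fun N hN => by convert h N hN⟩

end Pool.Agent.N733.TD
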